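import Mathlib

/-! # The 3-adic valuation of the central Delannoy numbers -/

set_option autoImplicit false

open Polynomial Finset

namespace Pool.Agent.Results.MP_a9cc6a_nt.Valuation

/-- the sum `∑ C(n,k) C(n+k,k)` -/
def a (n : ℕ) : ℕ := ∑ k ∈ Finset.range (n + 1), n.choose k * (n + k).choose k

/-- its 3-adic valuation -/
def b (n : ℕ) : ℕ := padicValNat 3 (a n)

/-! ## The formula in powers of three -/

lemma iter_comp (p : ℤ[X]) (k : ℕ) :
    derivative^[k] (p.comp (1 - 2 * X)) = C (-2) ^ k * (derivative^[k] p).comp (1 - 2 * X) := by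
  induction k generalizing p with
  | zero => simp
  | succ k ih =>
    rw [Function.iterate_succ_apply, derivative_comp]
    have : derivative (1 - 2 * X : ℤ[X]) = C (-2) := by
      simp [derivative_mul]
    rw [this, iterate_derivative_C_mul, ih, Function.iterate_succ_apply]
    ring

lemma a_eval (n : ℕ) : (shiftedLegendre n).eval (-1) = (a n : ℤ) := by
  rw [shiftedLegendre, eval_finsetSum, a]
  push_cast
  refine Finset.sum_congr rfl fun k hk => ?_
  have h1 : (n + k).choose n = (n + k).choose k := Nat.choose_symm_add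
  rw [h1]
  simp only [eval_mul, eval_C, eval_pow, eval_X]
  have h2 : ((-1 : ℤ)) ^ k * (-1) ^ k = 1 := by
    rw [← mul_pow]; simp
  linear_combination ((n.choose k : ℤ) * (n + k).choose k) * h2

lemma formula (n : ℕ) : (2 : ℤ) ^ n * a n =
    ∑ k ∈ range (n + 1), (-1 : ℤ) ^ (n + k) *
      ((n.choose k * (2 * k).choose n * 3 ^ (2 * k - n) : ℕ) : ℤ) := by
  have h1 := congrArg (eval (-1)) (factorial_mul_shiftedLegendre_eq n)
  rw [eval_mul, a_eval, eval_natCast] at h1
  have h2 : (((4 : ℤ) ^ n) • (X ^ n * (1 - (X : ℤ[X])) ^ n) : ℤ[X]) =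
      ((1 - X ^ 2 : ℤ[X]) ^ n).comp (1 - 2 * X) := by
    rw [pow_comp, sub_comp, one_comp, pow_comp, X_comp, zsmul_eq_mul, ← mul_pow]
    push_cast
    rw [← mul_pow]
    congr 1
    ring
  have h3 := congrArg (fun q => eval (-1) (derivative^[n] q)) h2
  simp only [iter_comp] at h3
  rw [iterate_derivative_smul, eval_smul, ← h1, eval_mul, eval_comp] at h3
  have h4 : (1 - X ^ 2 : ℤ[X]) ^ n = ∑ k ∈ range (n + 1), ((-1) ^ k * n.choose k : ℤ) • X ^ (2 * k) := by
    rw [sub_eq_add_neg, add_comm, add_pow]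
    refine Finset.sum_congr rfl fun k hk => ?_
    rw [zsmul_eq_mul, one_pow, mul_one, neg_pow, pow_mul]
    push_cast
    ring
  rw [h4, iterate_derivative_sum, eval_finsetSum] at h3
  have h5 : ∀ k ∈ range (n + 1), eval (eval (-1) (1 - 2 * X : ℤ[X]))
      (derivative^[n] (((-1) ^ k * n.choose k : ℤ) • (X : ℤ[X]) ^ (2 * k))) =
      (n.factorial : ℤ) * ((-1 : ℤ) ^ k *
        ((n.choose k * (2 * k).choose n * 3 ^ (2 * k - n) : ℕ) : ℤ)) := by
    intro k _
    rw [iterate_derivative_smul, iterate_derivative_X_pow_eq_natCast_mul, eval_smul, eval_mul,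
      eval_natCast, eval_pow, eval_X, Nat.descFactorial_eq_factorial_mul_choose]
    have : eval (-1) (1 - 2 * X : ℤ[X]) = 3 := by
      simp
    rw [this, smul_eq_mul]
    push_cast
    ring
  rw [Finset.sum_congr rfl h5, ← Finset.mul_sum] at h3
  have h6 : eval (-1) ((C (-2) : ℤ[X]) ^ n) = (-2 : ℤ) ^ n := by
    rw [eval_pow, eval_C]
  rw [h6, smul_eq_mul] at h3
  have h7 : (n.factorial : ℤ) ≠ 0 := by exact_mod_cast n.factorial_ne_zero
  have h8 : (2 : ℤ) ^ n ≠ 0 := by positivity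
  apply mul_left_cancel₀ h7
  apply mul_left_cancel₀ h8
  have h9 : (4 : ℤ) ^ n = 2 ^ n * 2 ^ n := by rw [← mul_pow]; norm_num
  have h10 : (-2 : ℤ) ^ n = (-1) ^ n * 2 ^ n := by rw [← mul_pow]; norm_num
  rw [h9, h10] at h3
  have h11 : ∀ k, (-1 : ℤ) ^ (n + k) = (-1) ^ n * (-1) ^ k := fun k => pow_add _ _ _
  simp only [h11, mul_assoc] at *
  rw [← Finset.mul_sum]
  linear_combination h3

/-- `C(2k,k) C(k,d)` -/
def M (k d : ℕ) : ℕ := Nat.centralBinom k * k.choose d

lemma choose_choose (n k : ℕ) (h1 : k ≤ n) (h2 : n ≤ 2 * k) :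
    n.choose k * (2 * k).choose n = M k (2 * k - n) := by
  rw [mul_comm, Nat.choose_mul h1, M, Nat.centralBinom]
  congr 1
  rw [show 2 * k - k = k by omega, show 2 * k - n = k - (n - k) by omega,
    Nat.choose_symm (by omega)]

lemma M_step (k d : ℕ) : M (k + 1) (d + 2) * ((d + 2) * (d + 1)) =
    2 * (2 * k + 1) * (k - d) * M k d := by
  have h1 := Nat.succ_mul_centralBinom_succ k
  have h2 : (k + 1).choose (d + 2) * (d + 2) = (k + 1) * k.choose (d + 1) :=
    (Nat.add_one_mul_choose_eq k (d + 1)).symm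
  have h3 : k.choose (d + 1) * (d + 1) = k.choose d * (k - d) := Nat.choose_succ_right_eq k d
  unfold M
  calc (k + 1).centralBinom * (k + 1).choose (d + 2) * ((d + 2) * (d + 1))
      = (k + 1).centralBinom * ((k + 1).choose (d + 2) * (d + 2)) * (d + 1) := by ring
    _ = ((k + 1) * (k + 1).centralBinom) * (k.choose (d + 1) * (d + 1)) := by rw [h2]; ring
    _ = 2 * (2 * k + 1) * (k - d) * (k.centralBinom * k.choose d) := by rw [h1, h3]; ring

lemma M_dvd (k e j : ℕ) (_he : e < 2) : M k e ∣ (e + 2 * j).factorial * M (k + j) (e + 2 * j) := by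
  induction j with
  | zero =>
    simp
  | succ j ih =>
    have h1 := M_step (k + j) (e + 2 * j)
    rw [show e + 2 * (j + 1) = e + 2 * j + 2 by ring, show k + (j + 1) = k + j + 1 by ring,
      Nat.factorial_succ, Nat.factorial_succ]
    have h2 : (e + 2 * j + 1 + 1) * ((e + 2 * j + 1) * (e + 2 * j).factorial) *
        M (k + j + 1) (e + 2 * j + 2) = (e + 2 * j).factorial *
          (M (k + j + 1) (e + 2 * j + 2) * ((e + 2 * j + 2) * (e + 2 * j + 1))) := by ring
    rw [h2, h1]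
    calc M k e ∣ (e + 2 * j).factorial * M (k + j) (e + 2 * j) := ih
      _ ∣ _ := ⟨2 * (2 * (k + j) + 1) * (k + j - (e + 2 * j)), by ring⟩

lemma term_dvd (k e j : ℕ) (he : e < 2) (hj : 1 ≤ j) (hk : M k e ≠ 0) :
    3 ^ (padicValNat 3 (M k e * 3 ^ e) + 1) ∣ M (k + j) (e + 2 * j) * 3 ^ (e + 2 * j) := by
  have : Fact (Nat.Prime 3) := ⟨by norm_num⟩
  rcases eq_or_ne (M (k + j) (e + 2 * j)) 0 with h0 | h0
  · simp [h0]
  · have h3 : ∀ i : ℕ, (3 : ℕ) ^ i ≠ 0 := fun i => pow_ne_zero _ (by norm_num)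
    rw [padicValNat_dvd_iff_le (mul_ne_zero h0 (h3 _)), padicValNat.mul hk (h3 _),
      padicValNat.mul h0 (h3 _), padicValNat.prime_pow, padicValNat.prime_pow]
    have h4 := M_dvd k e j he
    have hf := (e + 2 * j).factorial_ne_zero
    have h5 : padicValNat 3 (M k e) ≤ padicValNat 3 ((e + 2 * j).factorial) +
        padicValNat 3 (M (k + j) (e + 2 * j)) := by
      rw [← padicValNat.mul hf h0, ← padicValNat_dvd_iff_le (mul_ne_zero hf h0)]
      exact pow_padicValNat_dvd.trans h4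
    have h6 := sub_one_mul_padicValNat_factorial_lt_of_ne_zero 3
      (show e + 2 * j ≠ 0 by omega)
    omega

lemma a_pos (n : ℕ) : 0 < a n := by
  unfold a
  apply Finset.sum_pos
  · intro k hk
    rw [Finset.mem_range] at hk
    exact Nat.mul_pos (Nat.choose_pos (by omega)) (Nat.choose_pos (by omega))
  · exact ⟨0, by simp⟩

lemma formula2 (m e : ℕ) (he : e < 2) : (2 : ℤ) ^ (2 * m + e) * a (2 * m + e) =
    ∑ j ∈ range (m + 1), (-1 : ℤ) ^ (m + j) *
      ((M (m + e + j) (e + 2 * j) * 3 ^ (e + 2 * j) : ℕ) : ℤ) := by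
  rw [formula, show 2 * m + e + 1 = (m + e) + (m + 1) by ring, Finset.sum_range_add]
  have h1 : ∑ x ∈ range (m + e), (-1 : ℤ) ^ (2 * m + e + x) *
      (((2 * m + e).choose x * (2 * x).choose (2 * m + e) * 3 ^ (2 * x - (2 * m + e)) : ℕ) : ℤ)
      = 0 := by
    apply Finset.sum_eq_zero
    intro x hx
    rw [Finset.mem_range] at hx
    have : (2 * x).choose (2 * m + e) = 0 := Nat.choose_eq_zero_of_lt (by omega)
    rw [this]
    simp
  rw [h1, zero_add]
  refine Finset.sum_congr rfl fun j hj => ?_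
  rw [Finset.mem_range] at hj
  rw [choose_choose _ _ (by omega) (by omega),
    show 2 * (m + e + j) - (2 * m + e) = e + 2 * j by omega,
    show 2 * m + e + (m + e + j) = 2 * (m + e) + (m + j) by ring, pow_add, pow_mul]
  simp

lemma val_eq (m e : ℕ) (he : e < 2) :
    b (2 * m + e) = padicValNat 3 (M (m + e) e * 3 ^ e) := by
  have : Fact (Nat.Prime 3) := ⟨by norm_num⟩
  have h3 : ∀ i : ℕ, (3 : ℕ) ^ i ≠ 0 := fun i => pow_ne_zero _ (by norm_num)
  have hM : M (m + e) e ≠ 0 :=
    mul_ne_zero (Nat.centralBinom_ne_zero _) (Nat.choose_pos (by omega)).ne'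
  have hA : M (m + e) e * 3 ^ e ≠ 0 := mul_ne_zero hM (h3 _)
  set v := padicValNat 3 (M (m + e) e * 3 ^ e) with hv
  have key : ∀ w ≤ v + 1, (3 ^ w ∣ a (2 * m + e) ↔ 3 ^ w ∣ M (m + e) e * 3 ^ e) := by
    intro w hw
    have e1 : (3 ^ w ∣ a (2 * m + e)) ↔ ((3 ^ w : ℕ) : ℤ) ∣ (2 : ℤ) ^ (2 * m + e) * a (2 * m + e) := by
      have : (2 : ℤ) ^ (2 * m + e) * a (2 * m + e) = ((2 ^ (2 * m + e) * a (2 * m + e) : ℕ) : ℤ) := by
        push_cast; ring
      rw [this, Int.natCast_dvd_natCast]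
      have hc : Nat.Coprime (3 ^ w) (2 ^ (2 * m + e)) := Nat.Coprime.pow _ _ (by norm_num)
      exact (hc.dvd_mul_left).symm
    rw [e1, formula2 m e he, Finset.sum_range_succ']
    have e2 : ((3 ^ w : ℕ) : ℤ) ∣ ∑ j ∈ range m, (-1 : ℤ) ^ (m + (j + 1)) *
        ((M (m + e + (j + 1)) (e + 2 * (j + 1)) * 3 ^ (e + 2 * (j + 1)) : ℕ) : ℤ) := by
      apply Finset.dvd_sum
      intro j _
      apply Dvd.dvd.mul_left
      rw [Int.natCast_dvd_natCast]
      exact (pow_dvd_pow 3 hw).trans (term_dvd (m + e) e (j + 1) he (by omega) hM)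
    rw [dvd_add_right e2]
    simp only [add_zero, mul_zero]
    rcases Nat.even_or_odd m with hm | hm
    · rw [hm.neg_one_pow, one_mul, Int.natCast_dvd_natCast]
    · rw [hm.neg_one_pow, neg_one_mul, dvd_neg, Int.natCast_dvd_natCast]
  have ha := (a_pos (2 * m + e)).ne'
  apply le_antisymm
  · by_contra hcon
    have h1 : 3 ^ (v + 1) ∣ a (2 * m + e) := by
      rw [padicValNat_dvd_iff_le ha]
      unfold b at hcon
      omega
    rw [key _ le_rfl, padicValNat_dvd_iff_le hA] at h1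
    omega
  · unfold b
    rw [← padicValNat_dvd_iff_le ha, key _ (by omega), padicValNat_dvd_iff_le hA]

/-! ## The recursion -/

/-- the valuation of the central binomial coefficient -/
def c (m : ℕ) : ℕ := padicValNat 3 (Nat.centralBinom m)

lemma val_coprime (x : ℕ) (h : ¬ 3 ∣ x) : padicValNat 3 x = 0 :=
  padicValNat.eq_zero_of_not_dvd h

lemma c_step (m : ℕ) : c (m + 1) + padicValNat 3 (m + 1) = padicValNat 3 (2 * m + 1) + c m := by
  have : Fact (Nat.Prime 3) := ⟨by norm_num⟩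
  have h := congrArg (padicValNat 3) (Nat.succ_mul_centralBinom_succ m)
  rw [padicValNat.mul (by omega) (Nat.centralBinom_ne_zero _),
    padicValNat.mul (by omega) (Nat.centralBinom_ne_zero _),
    padicValNat.mul (by norm_num) (by omega), val_coprime 2 (by norm_num)] at h
  unfold c
  omega

lemma val_three_mul (x : ℕ) (hx : x ≠ 0) : padicValNat 3 (3 * x) = 1 + padicValNat 3 x := by
  have : Fact (Nat.Prime 3) := ⟨by norm_num⟩
  rw [padicValNat.mul (by norm_num) hx, padicValNat.self (by norm_num)]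

lemma c_one (m : ℕ) : c (3 * m + 1) = c (3 * m) := by
  have h := c_step (3 * m)
  rw [val_coprime (3 * m + 1) (by omega), val_coprime (2 * (3 * m) + 1) (by omega)] at h
  omega

lemma c_two (m : ℕ) : c (3 * m + 2) = 1 + padicValNat 3 (2 * m + 1) + c (3 * m) := by
  have h := c_step (3 * m + 1)
  rw [show 3 * m + 1 + 1 = 3 * m + 2 by ring, val_coprime (3 * m + 2) (by omega),
    show 2 * (3 * m + 1) + 1 = 3 * (2 * m + 1) by ring, val_three_mul _ (by omega), c_one] at h
  omega

lemma c_three (m : ℕ) : c (3 * m) = c m := by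
  induction m with
  | zero => simp
  | succ m ih =>
    have h := c_step (3 * m + 2)
    rw [show 3 * m + 2 + 1 = 3 * (m + 1) by ring, val_three_mul _ (by omega),
      val_coprime (2 * (3 * m + 2) + 1) (by omega), c_two, ih] at h
    have h2 := c_step m
    omega

lemma b_even (m : ℕ) : b (2 * m) = c m := by
  have := val_eq m 0 (by norm_num)
  simpa [M, c] using this

lemma b_odd (m : ℕ) : b (2 * m + 1) = 1 + padicValNat 3 (2 * m + 1) + c m := by
  have h := val_eq m 1 (by norm_num)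
  rw [h, M, Nat.choose_one_right, pow_one, mul_comm _ 3, val_three_mul _
    (mul_ne_zero (Nat.centralBinom_ne_zero _) (by omega)), mul_comm (Nat.centralBinom (m + 1)),
    Nat.succ_mul_centralBinom_succ]
  have : Fact (Nat.Prime 3) := ⟨by norm_num⟩
  rw [padicValNat.mul (by omega) (Nat.centralBinom_ne_zero _),
    padicValNat.mul (by norm_num) (by omega), val_coprime 2 (by norm_num)]
  unfold c
  omega

/-- the uniform recursion -/
lemma b_rec (n : ℕ) : b n = b (n / 3) + n % 2 := by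
  obtain ⟨m, r, hr, rfl⟩ : ∃ m r, r < 6 ∧ n = 6 * m + r :=
    ⟨n / 6, n % 6, Nat.mod_lt _ (by norm_num), by omega⟩
  interval_cases r
  · rw [show (6 * m + 0) / 3 = 2 * m by omega, show (6 * m + 0) % 2 = 0 by omega,
      show 6 * m + 0 = 2 * (3 * m) by ring, b_even, b_even, c_three, add_zero]
  · rw [show (6 * m + 1) / 3 = 2 * m by omega, show (6 * m + 1) % 2 = 1 by omega,
      show 6 * m + 1 = 2 * (3 * m) + 1 by ring, b_even, b_odd, c_three,
      val_coprime (2 * (3 * m) + 1) (by omega)]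
    omega
  · rw [show (6 * m + 2) / 3 = 2 * m by omega, show (6 * m + 2) % 2 = 0 by omega,
      show 6 * m + 2 = 2 * (3 * m + 1) by ring, b_even, b_even, c_one, c_three, add_zero]
  · rw [show (6 * m + 3) / 3 = 2 * m + 1 by omega, show (6 * m + 3) % 2 = 1 by omega,
      show 6 * m + 3 = 2 * (3 * m + 1) + 1 by ring, b_odd, b_odd, c_one, c_three,
      show 2 * (3 * m + 1) + 1 = 3 * (2 * m + 1) by ring, val_three_mul _ (by omega)]
    omega
  · rw [show (6 * m + 4) / 3 = 2 * m + 1 by omega, show (6 * m + 4) % 2 = 0 by omega,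
      show 6 * m + 4 = 2 * (3 * m + 2) by ring, b_even, b_odd, c_two, c_three]
    omega
  · rw [show (6 * m + 5) / 3 = 2 * m + 1 by omega, show (6 * m + 5) % 2 = 1 by omega,
      show 6 * m + 5 = 2 * (3 * m + 2) + 1 by ring, b_odd, b_odd, c_two, c_three,
      val_coprime (2 * (3 * m + 2) + 1) (by omega)]
    omega

/-- The conjectured recursion holds for every `n ≥ 0`; moreover `b(n) = b(⌊n/3⌋) + (n mod 2)`. -/
theorem result (n : ℕ) :
    (n % 3 = 0 ∨ n % 3 = 2 → b n = b (n / 3) + (n / 3) % 2) ∧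
    (n % 3 = 1 → b n = b (n / 9) + 1) ∧
    b n = b (n / 3) + n % 2 := by
  refine ⟨fun h => ?_, fun h => ?_, b_rec n⟩
  · rw [b_rec n]
    omega
  · rw [b_rec n, b_rec (n / 3), Nat.div_div_eq_div_mul]
    norm_num
    omega

end Pool.Agent.Results.MP_a9cc6a_nt.Valuation
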